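import Pool.Agent.U916.DF.Sum

set_option autoImplicit false

/-! Counting fields which are attached to quadratic fields and conductors. -/

namespace Pool.Agent.U916.DF

open NumberField

lemma finite_pairs (Y : ℝ) (c : ℝ) (hc : 0 < c) :
    {x : Sub × ℕ | 1 ≤ x.2 ∧ Module.finrank ℚ x.1 = 2 ∧ |(disc x.1 : ℝ)| * (x.2 : ℝ) ^ c ≤ Y}.Finite := by
  have hsub : {x : Sub × ℕ | 1 ≤ x.2 ∧ Module.finrank ℚ x.1 = 2 ∧
      |(disc x.1 : ℝ)| * (x.2 : ℝ) ^ c ≤ Y} ⊆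
      ((fun D : ℤ => QF D) '' (Set.Icc (-⌈Y⌉) ⌈Y⌉)) ×ˢ (Set.Iic (⌊Y ^ (1 / c)⌋₊)) := by
    rintro ⟨K, f⟩ ⟨h1, h2, h3⟩
    simp only at h1 h2 h3
    have i1 := nf_of_finrank K two_ne_zero h2
    have hd1 : (1 : ℝ) ≤ |(disc K : ℝ)| := by
      rw [disc_eq K i1]
      have : NumberField.discr K ≠ 0 := NumberField.discr_ne_zero K
      exact_mod_cast Int.one_le_abs this
    have hf1 : (1 : ℝ) ≤ f := by exact_mod_cast h1
    have hfc : (1 : ℝ) ≤ (f : ℝ) ^ c := Real.one_le_rpow hf1 hc.le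
    have h4 : |(disc K : ℝ)| ≤ Y := by nlinarith
    have h5 : (f : ℝ) ^ c ≤ Y := by nlinarith
    refine ⟨⟨disc K, ?_, QF_disc K h2⟩, ?_⟩
    · have h6 := abs_le.1 (h4.trans (Int.le_ceil Y))
      constructor
      · exact_mod_cast h6.1
      · exact_mod_cast h6.2
    · have h7 : (f : ℝ) ≤ Y ^ (1 / c) := by
        calc (f : ℝ) = ((f : ℝ) ^ c) ^ (1 / c) := by
              rw [← Real.rpow_mul (by positivity), mul_one_div_cancel hc.ne', Real.rpow_one]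
          _ ≤ Y ^ (1 / c) := Real.rpow_le_rpow (by positivity) h5 (by positivity)
      exact Nat.le_floor h7
  exact (((Set.finite_Icc _ _).image _).prod (Set.finite_Iic _)).subset hsub

/-- **Counting fields which are attached to quadratic fields and conductors.** -/
theorem count (l r A a b : ℕ) (ha : 1 ≤ a) (hb : 1 ≤ b) (E C0 : ℝ) (hE : (a : ℝ) < b * E)
    (hC0 : 0 < C0)
    (h0 : ∀ X : ℝ, 1 ≤ X → ∀ (S : Finset ℤ) (K : ℤ → Type) [∀ D, Field (K D)]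
      [∀ D, NumberField (K D)],
      (∀ D ∈ S, |(D : ℝ)| ≤ X ∧ Module.finrank ℚ (K D) = 2 ∧ NumberField.discr (K D) = D) →
      ∑ D ∈ S, (Nat.card {c : ClassGroup (𝓞 (K D)) // c ^ l = 1} : ℝ) ^ r ≤ C0 * X ^ E) :
    ∃ C : ℝ, 0 < C ∧ ∀ (𝓛 : Set Sub) (dd : Sub → ℤ) (att : Sub → ℕ → Set Sub),
      (∀ L ∈ 𝓛, ∃ (K : Sub) (f : ℕ), 1 ≤ f ∧ Module.finrank ℚ K = 2 ∧ L ∈ att K f ∧
        |disc K| ^ a * (f : ℤ) ^ b ≤ |dd L|) →
      (∀ (K : Sub) (f : ℕ), 1 ≤ f → Module.finrank ℚ K = 2 → (att K f).Finite ∧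
        (att K f).ncard ≤ A ^ (f.primeFactors.card + 1) * tor l K ^ r) →
      ∀ X : ℝ, 1 ≤ X → {L ∈ 𝓛 | |(dd L : ℝ)| ≤ X}.Finite ∧
        ({L ∈ 𝓛 | |(dd L : ℝ)| ≤ X}.ncard : ℝ) ≤ C * X ^ (E / a) := by
  classical
  have haR : (0 : ℝ) < a := by exact_mod_cast ha
  have hbR : (0 : ℝ) < b := by exact_mod_cast hb
  obtain ⟨c, hc⟩ : ∃ c : ℝ, c = b / a := ⟨_, rfl⟩
  have hc0 : 0 < c := by rw [hc]; positivity
  have hcE : 1 < c * E := by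
    rw [hc, div_mul_eq_mul_div, one_lt_div haR]
    exact hE
  obtain ⟨C, hC, hmain⟩ := double_sum l r A E c C0 hcE hC0 h0
  refine ⟨C, hC, ?_⟩
  intro 𝓛 dd att hL hatt X hX
  obtain ⟨Y, hY⟩ : ∃ Y : ℝ, Y = X ^ (1 / (a : ℝ)) := ⟨_, rfl⟩
  have hY1 : 1 ≤ Y := by rw [hY]; exact Real.one_le_rpow hX (by positivity)
  have hYa : Y ^ (a : ℝ) = X := by
    rw [hY, ← Real.rpow_mul (by linarith), one_div_mul_cancel haR.ne', Real.rpow_one]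
  obtain ⟨P, hP⟩ : ∃ P : Finset (Sub × ℕ), ∀ x, x ∈ P ↔ (1 ≤ x.2 ∧ Module.finrank ℚ x.1 = 2 ∧
      |(disc x.1 : ℝ)| * (x.2 : ℝ) ^ c ≤ Y) :=
    ⟨(finite_pairs Y c hc0).toFinset, fun x => by rw [Set.Finite.mem_toFinset]; rfl⟩
  have hcov : {L ∈ 𝓛 | |(dd L : ℝ)| ≤ X} ⊆ ⋃ x ∈ P, att x.1 x.2 := by
    rintro L ⟨hL1, hL2⟩
    obtain ⟨K, f, hf, hK, hmem, hle⟩ := hL L hL1
    refine Set.mem_biUnion (x := (K, f)) ?_ hmem
    refine (hP (K, f)).2 ⟨hf, hK, ?_⟩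
    have hle' : |(disc K : ℝ)| ^ a * (f : ℝ) ^ b ≤ |(dd L : ℝ)| := by exact_mod_cast hle
    have h1 : |(disc K : ℝ)| ^ a * (f : ℝ) ^ b ≤ X := hle'.trans hL2
    change |(disc K : ℝ)| * (f : ℝ) ^ c ≤ Y
    have hf0 : (0 : ℝ) ≤ f := by positivity
    have h2 : (|(disc K : ℝ)| * (f : ℝ) ^ c) ^ (a : ℝ) ≤ Y ^ (a : ℝ) := by
      rw [hYa, Real.mul_rpow (abs_nonneg _) (by positivity), ← Real.rpow_mul hf0, hc,
        div_mul_cancel₀ _ haR.ne', Real.rpow_natCast, Real.rpow_natCast]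
      exact h1
    exact (Real.rpow_le_rpow_iff (by positivity) (by linarith) haR).1 h2
  have hPf : (⋃ x ∈ P, att x.1 x.2).Finite := by
    refine Set.Finite.biUnion (Finset.finite_toSet P) fun x hx => ?_
    have := (hP x).1 hx
    exact (hatt x.1 x.2 this.1 this.2.1).1
  refine ⟨hPf.subset hcov, ?_⟩
  have h3 : ({L ∈ 𝓛 | |(dd L : ℝ)| ≤ X}.ncard : ℝ) ≤ ∑ x ∈ P, ((att x.1 x.2).ncard : ℝ) := by
    have h4 : (⋃ x ∈ P, att x.1 x.2).ncard ≤ ∑ x ∈ P, (att x.1 x.2).ncard :=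
      Finset.set_ncard_biUnion_le P fun x => att x.1 x.2
    calc ({L ∈ 𝓛 | |(dd L : ℝ)| ≤ X}.ncard : ℝ) ≤ ((⋃ x ∈ P, att x.1 x.2).ncard : ℝ) := by
          exact_mod_cast Set.ncard_le_ncard hcov hPf
      _ ≤ ((∑ x ∈ P, (att x.1 x.2).ncard : ℕ) : ℝ) := by exact_mod_cast h4
      _ = _ := by push_cast; rfl
  have h5 : ∑ x ∈ P, ((att x.1 x.2).ncard : ℝ) ≤
      ∑ x ∈ P, (A : ℝ) ^ (x.2.primeFactors.card + 1) * (tor l x.1 : ℝ) ^ r := by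
    refine Finset.sum_le_sum fun x hx => ?_
    have := (hP x).1 hx
    exact_mod_cast (hatt x.1 x.2 this.1 this.2.1).2
  refine (h3.trans h5).trans ((hmain Y hY1 P fun x hx => (hP x).1 hx).trans (le_of_eq ?_))
  rw [hY, ← Real.rpow_mul (by linarith)]
  congr 2
  ring

end Pool.Agent.U916.DF
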