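import Pool.Agent.U916.DF.Count

set_option autoImplicit false

/-! Fields with a dihedral group: definitions and the upper bounds. -/

namespace Pool.Agent.U916.DF

open NumberField

/-- The normal closure of `L` over `ℚ` inside `ℚ̄`. -/
noncomputable abbrev ncl (L : Sub) : Sub := IntermediateField.normalClosure ℚ L (AlgebraicClosure ℚ)

/-- The subfields `L` of `ℚ̄` of degree `p` such that the Galois group of the normal closure of `L` over `ℚ`
is isomorphic to the dihedral group `D_p` of order `2 p`. -/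
def DihedralFields (p : ℕ) : Set Sub :=
  {L | Module.finrank ℚ L = p ∧ Nonempty ((ncl L ≃ₐ[ℚ] ncl L) ≃* DihedralGroup p)}

/-- `L` has degree `p`, its normal closure `M` has the Galois group `D_p` and contains `K`,
`|disc L| = (|disc K| f ^ 2) ^ ((p - 1) / 2)` and `|disc M| = |disc K| ^ p f ^ (2 (p - 1))`. (If `K` is
quadratic this says that `M / K` has the conductor `f 𝓞_K`.) -/
structure Attached (p : ℕ) (K : Sub) (f : ℕ) (L : Sub) : Prop where
  mem : L ∈ DihedralFields p
  le : K ≤ ncl L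
  disc_eq : |disc L| = (|disc K| * (f : ℤ) ^ 2) ^ ((p - 1) / 2)
  disc_ncl : |disc (ncl L)| = |disc K| ^ p * (f : ℤ) ^ (2 * (p - 1))

/-- Known consequences of class field theory (Klüners, Asymptotics of number fields and the Cohen-Lenstra
heuristics, 2006; they hold with `A = p ^ 4`):

* `conductor`: each such `L` is attached to a quadratic field `K` (the fixed field of the rotations) and to a
  positive integer `f` (`f 𝓞_K` is the conductor of `M / K`);
* `count`: at most `A ^ (ω(f) + 1) |Cl(K)[p]|` fields are attached to a quadratic field `K` and `f`, because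
  the part of the ray class group of `K` modulo `f` on which the conjugation acts by `-1` has a `p`-rank which
  exceeds the one of `Cl(K)` by at most `ω(f) + 3`. -/
structure ClassFieldFacts (p A : ℕ) : Prop where
  conductor : ∀ L ∈ DihedralFields p, ∃ (K : Sub) (f : ℕ), 1 ≤ f ∧ Module.finrank ℚ K = 2 ∧
    Attached p K f L
  count : ∀ (K : Sub) (f : ℕ), 1 ≤ f → Module.finrank ℚ K = 2 →
    {L | Attached p K f L}.Finite ∧
      {L | Attached p K f L}.ncard ≤ A ^ (f.primeFactors.card + 1) *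
        Nat.card {c : ClassGroup (𝓞 K) // c ^ p = 1}

/-- The fields of degree `p` with group `D_p` and `|disc L| ≤ X`. -/
def DFields (p : ℕ) (X : ℝ) : Set Sub := {L | L ∈ DihedralFields p ∧ |(disc L : ℝ)| ≤ X}

/-- The normal closures `M` (of degree `2 p`) of the fields of degree `p` with group `D_p`, with
`|disc M| ≤ X`. -/
def DClosures (p : ℕ) (X : ℝ) : Set Sub := {M | ∃ L ∈ DihedralFields p, M = ncl L ∧ |(disc M : ℝ)| ≤ X}

theorem upper (p A : ℕ) (hp : 3 ≤ p) (hodd : Odd p) (hA : ClassFieldFacts p A) (E C0 : ℝ)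
    (hE : 11 / 10 ≤ E) (hC0 : 0 < C0)
    (h0 : ∀ X : ℝ, 1 ≤ X → ∀ (S : Finset ℤ) (K : ℤ → Type) [∀ D, Field (K D)]
      [∀ D, NumberField (K D)],
      (∀ D ∈ S, |(D : ℝ)| ≤ X ∧ Module.finrank ℚ (K D) = 2 ∧ NumberField.discr (K D) = D) →
      ∑ D ∈ S, (Nat.card {c : ClassGroup (𝓞 (K D)) // c ^ p = 1} : ℝ) ^ 1 ≤ C0 * X ^ E) :
    ∃ C : ℝ, 0 < C ∧ ∀ X : ℝ, 1 ≤ X →
      ((DFields p X).Finite ∧ ((DFields p X).ncard : ℝ) ≤ C * X ^ (2 * E / (p - 1))) ∧
      ((DClosures p X).Finite ∧ ((DClosures p X).ncard : ℝ) ≤ C * X ^ (E / p)) := by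
  have hpR : (3 : ℝ) ≤ p := by exact_mod_cast hp
  obtain ⟨m, hm⟩ := hodd
  have hm1 : (p - 1) / 2 = m := by omega
  have hm2 : p - 1 = 2 * m := by omega
  have hmR : (p : ℝ) = 2 * m + 1 := by rw [hm]; push_cast; ring
  have hm0 : 1 ≤ m := by omega
  have hm0R : (1 : ℝ) ≤ m := by exact_mod_cast hm0
  obtain ⟨C1, hC1, h1⟩ := count p 1 A m (2 * m) hm0 (by omega) E C0 (by push_cast; nlinarith) hC0 h0
  obtain ⟨C2, hC2, h2⟩ := count p 1 A p (2 * (p - 1)) (by omega) (by omega) E C0
    (by
      rw [hm2]; push_cast; rw [hmR]; nlinarith) hC0 h0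
  have hcount : ∀ (K : Sub) (f : ℕ), 1 ≤ f → Module.finrank ℚ K = 2 →
      {L | Attached p K f L}.Finite ∧
      {L | Attached p K f L}.ncard ≤ A ^ (f.primeFactors.card + 1) * tor p K ^ 1 := by
    intro K f hf hK
    rw [pow_one]
    exact hA.count K f hf hK
  refine ⟨C1 + C2, by positivity, ?_⟩
  intro X hX
  constructor
  · have h3 := h1 (DihedralFields p) disc (fun K f => {L | Attached p K f L}) (by
      intro L hL
      obtain ⟨K, f, hf, hK, hatt⟩ := hA.conductor L hL
      refine ⟨K, f, hf, hK, hatt, le_of_eq ?_⟩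
      rw [hatt.disc_eq, hm1, mul_pow, ← pow_mul]) hcount X hX
    refine ⟨h3.1, h3.2.trans ?_⟩
    have e : E / m = 2 * E / (p - 1) := by
      rw [hmR, div_eq_div_iff (by positivity) (by ring_nf; positivity)]
      ring
    rw [e]
    exact mul_le_mul_of_nonneg_right (by linarith) (by positivity)
  · have h3 := h2 (DihedralFields p) (fun L => disc (ncl L)) (fun K f => {L | Attached p K f L}) (by
      intro L hL
      obtain ⟨K, f, hf, hK, hatt⟩ := hA.conductor L hL
      refine ⟨K, f, hf, hK, hatt, le_of_eq ?_⟩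
      rw [hatt.disc_ncl]) hcount X hX
    have hsub : DClosures p X ⊆ ncl '' {L ∈ DihedralFields p | |(disc (ncl L) : ℝ)| ≤ X} := by
      rintro M ⟨L, hL, rfl, hX'⟩
      exact ⟨L, ⟨hL, hX'⟩, rfl⟩
    refine ⟨(h3.1.image _).subset hsub, ?_⟩
    have h4 : (DClosures p X).ncard ≤ {L ∈ DihedralFields p | |(disc (ncl L) : ℝ)| ≤ X}.ncard :=
      (Set.ncard_le_ncard hsub (h3.1.image _)).trans (Set.ncard_image_le h3.1)
    calc ((DClosures p X).ncard : ℝ) ≤ ({L ∈ DihedralFields p | |(disc (ncl L) : ℝ)| ≤ X}.ncard : ℝ) := by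
          exact_mod_cast h4
      _ ≤ C2 * X ^ (E / p) := h3.2
      _ ≤ (C1 + C2) * X ^ (E / p) := mul_le_mul_of_nonneg_right (by linarith) (by positivity)

end Pool.Agent.U916.DF
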