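import Pool.Agent.U916.DF.Mom
import Pool.Agent.U916.DF.Dih

set_option autoImplicit false

/-! Fields with a generalised dihedral group: definitions and the upper bounds. -/

namespace Pool.Agent.U916.DF

open NumberField

/-- `G` is the generalised dihedral group of `(ℤ / p) ^ r`: a subgroup `N` of index `2` is isomorphic to
`(ℤ / p) ^ r`, and all elements outside `N` are involutions (so they act on `N` by inversion). -/
def IsGenDihedral (G : Type) [Group G] (p r : ℕ) : Prop :=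
  ∃ N : Subgroup G, Nonempty (N ≃* Multiplicative (Fin r → ZMod p)) ∧ N.index = 2 ∧
    ∀ g : G, g ∉ N → g * g = 1

/-- The subfields `L` of `ℚ̄` of degree `p ^ r` such that the Galois group of the normal closure of `L` over
`ℚ` is the generalised dihedral group of `(ℤ / p) ^ r`, of order `2 p ^ r`. -/
def GenFields (p r : ℕ) : Set Sub :=
  {L | Module.finrank ℚ L = p ^ r ∧ IsGenDihedral (ncl L ≃ₐ[ℚ] ncl L) p r}

/-- `L` is such a field, its normal closure `M` contains `K`, `|disc M| = |disc K| ^ (p ^ r) g`, and `f` is the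
product of the primes which divide `g`. (If `K` is quadratic, then `g` is the norm of the relative discriminant
and `f` is the product of the primes which ramify in `M / K`.) -/
structure GenAttached (p r : ℕ) (K : Sub) (f : ℕ) (L : Sub) : Prop where
  mem : L ∈ GenFields p r
  le : K ≤ ncl L
  ram : ∃ g : ℕ, |disc (ncl L)| = |disc K| ^ (p ^ r) * (g : ℤ) ∧ f = ∏ q ∈ g.primeFactors, q

/-- Known consequences of class field theory (they hold with `A = p ^ (4 r)`):

* `conductor`: each such `L` is attached to a quadratic field `K` (the fixed field of `N`) and to a positive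
  integer `f`, and by the conductor-discriminant formula `|disc K| ^ ((p ^ r - 1) / 2) f ^ (p ^ r - p ^ (r - 1))`
  is at most `|disc L|` and `|disc K| ^ (p ^ r) f ^ (2 (p ^ r - p ^ (r - 1)))` is at most `|disc M|` (at least
  `p ^ r - p ^ (r - 1)` of the characters of `N` are ramified at each prime `q ∣ f`, their conductors are
  integers, and `|disc L|` is the product of `|disc K| f(ψ) ^ 2` over the pairs `{ψ, ψ⁻¹}`, `ψ ≠ 1`);
* `count`: at most `A ^ (ω(f) + 1) |Cl(K)[p]| ^ r` fields are attached to a quadratic field `K` and `f`, because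
  the part of the ray class group of `K` modulo a power of `f` on which the conjugation acts by `-1` has a
  `p`-rank which exceeds the one of `Cl(K)` by at most `ω(f) + 3`. -/
structure GenClassFieldFacts (p r A : ℕ) : Prop where
  conductor : ∀ L ∈ GenFields p r, ∃ (K : Sub) (f : ℕ), 1 ≤ f ∧ Module.finrank ℚ K = 2 ∧
    GenAttached p r K f L ∧
    |disc K| ^ ((p ^ r - 1) / 2) * (f : ℤ) ^ (p ^ r - p ^ (r - 1)) ≤ |disc L| ∧
    |disc K| ^ (p ^ r) * (f : ℤ) ^ (2 * (p ^ r - p ^ (r - 1))) ≤ |disc (ncl L)|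
  count : ∀ (K : Sub) (f : ℕ), 1 ≤ f → Module.finrank ℚ K = 2 →
    {L | GenAttached p r K f L}.Finite ∧
      {L | GenAttached p r K f L}.ncard ≤ A ^ (f.primeFactors.card + 1) *
        Nat.card {c : ClassGroup (𝓞 K) // c ^ p = 1} ^ r

/-- The fields `L` of degree `p ^ r` with this group and `|disc L| ≤ X`. -/
def GFields (p r : ℕ) (X : ℝ) : Set Sub := {L | L ∈ GenFields p r ∧ |(disc L : ℝ)| ≤ X}

/-- The normal closures `M` (of degree `2 p ^ r`) of the fields of degree `p ^ r` with this group, with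
`|disc M| ≤ X`. -/
def GClosures (p r : ℕ) (X : ℝ) : Set Sub :=
  {M | ∃ L ∈ GenFields p r, M = ncl L ∧ |(disc M : ℝ)| ≤ X}

theorem gen_upper (p r A : ℕ) (hp : 3 ≤ p) (hodd : Odd p) (hr : 1 ≤ r)
    (hA : GenClassFieldFacts p r A) (E C0 : ℝ)
    (hE : 1 ≤ E) (hC0 : 0 < C0)
    (h0 : ∀ X : ℝ, 1 ≤ X → ∀ (S : Finset ℤ) (K : ℤ → Type) [∀ D, Field (K D)]
      [∀ D, NumberField (K D)],
      (∀ D ∈ S, |(D : ℝ)| ≤ X ∧ Module.finrank ℚ (K D) = 2 ∧ NumberField.discr (K D) = D) →
      ∑ D ∈ S, (Nat.card {c : ClassGroup (𝓞 (K D)) // c ^ p = 1} : ℝ) ^ r ≤ C0 * X ^ E) :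
    ∃ C : ℝ, 0 < C ∧ ∀ X : ℝ, 1 ≤ X →
      ((GFields p r X).Finite ∧ ((GFields p r X).ncard : ℝ) ≤ C * X ^ (2 * E / ((p : ℝ) ^ r - 1))) ∧
      ((GClosures p r X).Finite ∧ ((GClosures p r X).ncard : ℝ) ≤ C * X ^ (E / (p : ℝ) ^ r)) := by
  have hpR : (3 : ℝ) ≤ p := by exact_mod_cast hp
  obtain ⟨s, rfl⟩ : ∃ s, r = s + 1 := ⟨r - 1, by omega⟩
  have hps : 0 < p ^ s := by positivity
  obtain ⟨m, hm⟩ : Odd (p ^ (s + 1)) := hodd.pow
  have h3q : 3 * p ^ s ≤ p ^ (s + 1) := by
    rw [pow_succ, mul_comm]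
    exact Nat.mul_le_mul_left _ hp
  have hm1 : (p ^ (s + 1) - 1) / 2 = m := by omega
  have hm0 : 1 ≤ m := by omega
  have hm0R : (1 : ℝ) ≤ m := by exact_mod_cast hm0
  have hmR : (p : ℝ) ^ (s + 1) = 2 * m + 1 := by exact_mod_cast hm
  obtain ⟨b, hb⟩ : ∃ b, b = p ^ (s + 1) - p ^ (s + 1 - 1) := ⟨_, rfl⟩
  have hb3 : 2 * p ^ (s + 1) ≤ 3 * b := by
    rw [hb, Nat.add_sub_cancel]; omega
  have hb1 : m < b := by omega
  have hb1R : (m : ℝ) < b := by exact_mod_cast hb1
  have hb2 : p ^ (s + 1) < 2 * b := by omega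
  have hb2R : ((p ^ (s + 1) : ℕ) : ℝ) < ((2 * b : ℕ) : ℝ) := by exact_mod_cast hb2
  have hbR : (0 : ℝ) < b := by linarith
  obtain ⟨C1, hC1, h1⟩ := count p (s + 1) A m b hm0 (by omega) E C0 (by nlinarith) hC0 h0
  obtain ⟨C2, hC2, h2⟩ := count p (s + 1) A (p ^ (s + 1)) (2 * b) (by omega) (by omega) E C0
    (by
      have : (0 : ℝ) < ((2 * b : ℕ) : ℝ) := by push_cast; linarith
      nlinarith) hC0 h0
  have hcount : ∀ (K : Sub) (f : ℕ), 1 ≤ f → Module.finrank ℚ K = 2 →
      {L | GenAttached p (s + 1) K f L}.Finite ∧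
      {L | GenAttached p (s + 1) K f L}.ncard ≤
        A ^ (f.primeFactors.card + 1) * tor p K ^ (s + 1) := by
    intro K f hf hK
    exact hA.count K f hf hK
  refine ⟨C1 + C2, by positivity, ?_⟩
  intro X hX
  constructor
  · have h3 := h1 (GenFields p (s + 1)) disc (fun K f => {L | GenAttached p (s + 1) K f L}) (by
      intro L hL
      obtain ⟨K, f, hf, hK, hatt, hd1, hd2⟩ := hA.conductor L hL
      refine ⟨K, f, hf, hK, hatt, ?_⟩
      rw [hm1, ← hb] at hd1
      exact hd1) hcount X hX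
    refine ⟨h3.1, h3.2.trans ?_⟩
    have e : E / m = 2 * E / ((p : ℝ) ^ (s + 1) - 1) := by
      rw [hmR, div_eq_div_iff (by positivity) (by ring_nf; positivity)]
      ring
    rw [e]
    exact mul_le_mul_of_nonneg_right (by linarith) (by positivity)
  · have h3 := h2 (GenFields p (s + 1)) (fun L => disc (ncl L))
      (fun K f => {L | GenAttached p (s + 1) K f L}) (by
      intro L hL
      obtain ⟨K, f, hf, hK, hatt, hd1, hd2⟩ := hA.conductor L hL
      refine ⟨K, f, hf, hK, hatt, ?_⟩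
      rw [← hb] at hd2
      exact hd2) hcount X hX
    have hsub : GClosures p (s + 1) X ⊆
        ncl '' {L ∈ GenFields p (s + 1) | |(disc (ncl L) : ℝ)| ≤ X} := by
      rintro M ⟨L, hL, rfl, hX'⟩
      exact ⟨L, ⟨hL, hX'⟩, rfl⟩
    refine ⟨(h3.1.image _).subset hsub, ?_⟩
    have h4 : (GClosures p (s + 1) X).ncard ≤
        {L ∈ GenFields p (s + 1) | |(disc (ncl L) : ℝ)| ≤ X}.ncard :=
      (Set.ncard_le_ncard hsub (h3.1.image _)).trans (Set.ncard_image_le h3.1)
    calc ((GClosures p (s + 1) X).ncard : ℝ)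
        ≤ ({L ∈ GenFields p (s + 1) | |(disc (ncl L) : ℝ)| ≤ X}.ncard : ℝ) := by
          exact_mod_cast h4
      _ ≤ C2 * X ^ (E / ((p ^ (s + 1) : ℕ) : ℝ)) := h3.2
      _ = C2 * X ^ (E / (p : ℝ) ^ (s + 1)) := by push_cast; rfl
      _ ≤ (C1 + C2) * X ^ (E / (p : ℝ) ^ (s + 1)) :=
          mul_le_mul_of_nonneg_right (by linarith) (by positivity)

end Pool.Agent.U916.DF
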