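import Pool.Agent.U916.DF.Count

set_option autoImplicit false

/-! Moments with an explicit saving. -/

namespace Pool.Agent.U916.DF

open NumberField

/-- the exponent for large `l` -/
theorem expo (l r : ℕ) (hr : 1 ≤ r) (hl : 100 * r ≤ l) : ∃ k : ℕ, 1 ≤ k ∧ k ≤ l ∧ 3 * r ≤ 2 * k ∧
    3 / 8 * ((r : ℝ) / l) ^ ((2 : ℝ) / 3) < min ((k : ℝ) ^ 2 / (4 * (l : ℝ) ^ 2))
        ((r : ℝ) * (1 - (k : ℝ) ^ 2 / (4 * (l : ℝ) ^ 2)) / (2 * k)) := by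
  have hrR : (1 : ℝ) ≤ r := by exact_mod_cast hr
  have hlR : (100 : ℝ) * r ≤ l := by exact_mod_cast hl
  have hl0 : (0 : ℝ) < l := by linarith
  obtain ⟨t, ht⟩ : ∃ t : ℝ, t = ((r : ℝ) * (l : ℝ) ^ 2) ^ ((1 : ℝ) / 3) := ⟨_, rfl⟩
  have ht0 : 0 < t := by rw [ht]; positivity
  have ht3 : t ^ 3 = (r : ℝ) * (l : ℝ) ^ 2 := by
    rw [ht, ← Real.rpow_natCast, ← Real.rpow_mul (by positivity)]
    norm_num
  have hrt : ((r : ℝ) / l) ^ ((2 : ℝ) / 3) = r / t := by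
    have h1 : ((r : ℝ) / l) ^ ((2 : ℝ) / 3) * t = r := by
      have h2 : (((r : ℝ) / l) ^ ((2 : ℝ) / 3) * t) ^ 3 = (r : ℝ) ^ 3 := by
        rw [mul_pow, ht3, ← Real.rpow_natCast (((r : ℝ) / l) ^ ((2 : ℝ) / 3)), ← Real.rpow_mul (by positivity)]
        have : ((2 : ℝ) / 3 * ((3 : ℕ) : ℝ)) = ((2 : ℕ) : ℝ) := by norm_num
        rw [this, Real.rpow_natCast]
        field_simp
      exact (pow_left_inj₀ (by positivity) (by positivity) (by norm_num)).1 h2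
    rw [eq_div_iff ht0.ne']
    exact h1
  rw [hrt]
  have ht21 : 21.5 * r ≤ t := by
    by_contra h
    rw [not_le] at h
    have h1 : t ^ 3 < (21.5 * (r : ℝ)) ^ 3 := pow_lt_pow_left₀ h ht0.le (by norm_num)
    rw [ht3] at h1
    have h2 : ((100 : ℝ) * r) ^ 2 ≤ (l : ℝ) ^ 2 := pow_le_pow_left₀ (by positivity) hlR 2
    have h3 : (r : ℝ) * ((100 : ℝ) * r) ^ 2 ≤ r * (l : ℝ) ^ 2 := mul_le_mul_of_nonneg_left h2 (by linarith)
    have h4 : 0 < (r : ℝ) ^ 3 := by positivity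
    nlinarith
  -- `c = 2 ^ (1/3)`
  obtain ⟨c, hc⟩ : ∃ c : ℝ, c = (2 : ℝ) ^ ((1 : ℝ) / 3) := ⟨_, rfl⟩
  have hc0 : 0 < c := by rw [hc]; positivity
  have hc3 : c ^ 3 = 2 := by
    rw [hc, ← Real.rpow_natCast, ← Real.rpow_mul (by norm_num)]
    norm_num
  have hc1 : c ≤ 1.26 := by
    by_contra h
    rw [not_le] at h
    have h1 : (1.26 : ℝ) ^ 3 < c ^ 3 := pow_lt_pow_left₀ h (by norm_num) (by norm_num)
    rw [hc3] at h1
    norm_num at h1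
  have hc2 : 1.2599 ≤ c := by
    by_contra h
    rw [not_le] at h
    have h1 : c ^ 3 < (1.2599 : ℝ) ^ 3 := pow_lt_pow_left₀ h hc0.le (by norm_num)
    rw [hc3] at h1
    norm_num at h1
  obtain ⟨k, hk⟩ : ∃ k : ℕ, k = ⌈c * t⌉₊ := ⟨_, rfl⟩
  have hkl1 : c * t ≤ k := by rw [hk]; exact Nat.le_ceil _
  have hkl2 : (k : ℝ) < c * t + 1 := by rw [hk]; exact Nat.ceil_lt_add_one (by positivity)
  have ht22 : 21.5 ≤ t := by linarith
  have hk27 : (27 : ℝ) * r ≤ k := by nlinarith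
  have hk0 : (0 : ℝ) < k := by linarith
  have hk3 : (k : ℝ) ≤ 1.30652 * t := by nlinarith
  refine ⟨k, ?_, ?_, ?_, ?_⟩
  · have : (1 : ℝ) ≤ k := by linarith
    exact_mod_cast this
  · have h1 : (k : ℝ) ≤ l := by
      have h2 : (k : ℝ) ^ 2 ≤ (l : ℝ) ^ 2 := by
        have h4 : (k : ℝ) ^ 2 ≤ (1.31 * t) ^ 2 := pow_le_pow_left₀ hk0.le (by linarith) 2
        have h5 : (r : ℝ) * (1.31 * t) ^ 2 ≤ r * (l : ℝ) ^ 2 := by
          rw [← ht3]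
          have : (r : ℝ) * 1.7161 ≤ t := by linarith
          nlinarith [sq_nonneg t]
        have h6 : (1.31 * t) ^ 2 ≤ (l : ℝ) ^ 2 := le_of_mul_le_mul_left h5 (by linarith)
        linarith
      exact (pow_le_pow_iff_left₀ hk0.le hl0.le two_ne_zero).1 h2
    exact_mod_cast h1
  · have : (3 : ℝ) * r ≤ 2 * k := by linarith
    exact_mod_cast this
  · have hl2 : (l : ℝ) ^ 2 = t ^ 3 / r := by
      rw [ht3]; field_simp
    have e1 : (k : ℝ) ^ 2 / (4 * (l : ℝ) ^ 2) = r * ((k : ℝ) ^ 2 / (4 * t ^ 3)) := by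
      rw [hl2]; field_simp
    rw [e1]
    apply lt_min
    · have h1 : (c * t) ^ 2 ≤ (k : ℝ) ^ 2 := pow_le_pow_left₀ (by positivity) hkl1 2
      have h2 : 1.5 < c ^ 2 := by nlinarith
      have h3 : 1.5 * t ^ 2 < (k : ℝ) ^ 2 := by nlinarith
      have h4 : 3 / 8 * (1 / t) < (k : ℝ) ^ 2 / (4 * t ^ 3) := by
        rw [lt_div_iff₀ (by positivity)]
        have : 3 / 8 * (1 / t) * (4 * t ^ 3) = 1.5 * t ^ 2 := by field_simp; ring
        rw [this]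
        exact h3
      calc 3 / 8 * ((r : ℝ) / t) = r * (3 / 8 * (1 / t)) := by ring
        _ < _ := mul_lt_mul_of_pos_left h4 (by linarith)
    · have h1 : r * ((k : ℝ) ^ 2 / (4 * t ^ 3)) ≤ r * (0.427 / t) := by
        refine mul_le_mul_of_nonneg_left ?_ (by linarith)
        rw [div_le_div_iff₀ (by positivity) ht0]
        have h3 : (k : ℝ) ^ 2 ≤ (1.30652 * t) ^ 2 := pow_le_pow_left₀ hk0.le hk3 2
        have h4 : (k : ℝ) ^ 2 * t ≤ (1.30652 * t) ^ 2 * t := mul_le_mul_of_nonneg_right h3 ht0.le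
        nlinarith [pow_pos ht0 3]
      have h2 : 3 / 8 * (1 / t) < (1 - r * (0.427 / t)) / (2 * k) := by
        rw [lt_div_iff₀ (by positivity)]
        have h5 : 3 / 8 * (1 / t) * (2 * k) * t = 0.75 * k := by field_simp; ring
        have h6 : (1 - r * (0.427 / t)) * t = t - 0.427 * r := by field_simp
        have h7 : 3 / 8 * (1 / t) * (2 * k) * t < (1 - r * (0.427 / t)) * t := by
          rw [h5, h6]
          have : (k : ℝ) < 1.26 * t + 1 := by nlinarith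
          nlinarith
        exact lt_of_mul_lt_mul_right h7 ht0.le
      have h3 : (1 - r * (0.427 / t)) / (2 * k) ≤ (1 - r * ((k : ℝ) ^ 2 / (4 * t ^ 3))) / (2 * k) :=
        div_le_div_of_nonneg_right (by linarith) (by positivity)
      calc 3 / 8 * ((r : ℝ) / t) = r * (3 / 8 * (1 / t)) := by ring
        _ < r * ((1 - r * ((k : ℝ) ^ 2 / (4 * t ^ 3))) / (2 * k)) :=
            mul_lt_mul_of_pos_left (h2.trans_le h3) (by linarith)
        _ = _ := by ring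

/-- moments for large `l` -/
theorem moment (l r : ℕ) (hr : 1 ≤ r) (hl : 100 * r ≤ l) : ∃ C : ℝ, 0 < C ∧ ∀ X : ℝ, 1 ≤ X →
    ∀ (S : Finset ℤ) (K : ℤ → Type) [∀ D, Field (K D)] [∀ D, NumberField (K D)],
    (∀ D ∈ S, |(D : ℝ)| ≤ X ∧ Module.finrank ℚ (K D) = 2 ∧ NumberField.discr (K D) = D) →
    ∑ D ∈ S, (Nat.card {c : ClassGroup (𝓞 (K D)) // c ^ l = 1} : ℝ) ^ r ≤
      C * X ^ (1 + (r : ℝ) / 2 - 3 / 8 * ((r : ℝ) / l) ^ ((2 : ℝ) / 3)) := by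
  obtain ⟨k, hk1, hkl, hrk, hlt⟩ := expo l r hr hl
  obtain ⟨v, hv⟩ : ∃ v, v = min ((k : ℝ) ^ 2 / (4 * (l : ℝ) ^ 2))
        ((r : ℝ) * (1 - (k : ℝ) ^ 2 / (4 * (l : ℝ) ^ 2)) / (2 * k)) := ⟨_, rfl⟩
  obtain ⟨u, hu⟩ : ∃ u, u = 3 / 8 * ((r : ℝ) / l) ^ ((2 : ℝ) / 3) := ⟨_, rfl⟩
  rw [← hv, ← hu] at hlt
  obtain ⟨C, hC0, hC⟩ := Pool.Agent.U916.GT.full l k r hr hk1 hkl hrk (v - u) (by linarith)
  refine ⟨C, hC0, ?_⟩
  intro X hX S K _ _ hS
  refine (hC X hX S K hS).trans (le_of_eq ?_)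
  rw [← hv, ← hu]
  congr 2
  ring

end Pool.Agent.U916.DF
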