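import Pool.Agent.U916.GT.Fin
import Pool.Agent.TH847.LS.Quad
import Pool.Agent.W75.PL.DIV

set_option autoImplicit false

/-! Powers with the number of prime factors as exponent; quadratic fields and their discriminants. -/

namespace Pool.Agent.U916.DF

open NumberField

theorem two_pow_le (n : ℕ) (hn : n ≠ 0) : 2 ^ n.primeFactors.card ≤ n.divisors.card := by
  rw [Nat.card_divisors hn, ← Finset.prod_const]
  refine Finset.prod_le_prod' fun p hp => ?_
  have h1 := (Nat.mem_primeFactors.1 hp)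
  have h2 := h1.1.factorization_pos_of_dvd hn h1.2.1
  omega

/-- `A ^ ω(n)` is at most a constant times any given positive power of `n`. -/
theorem pow_omega (A : ℕ) (δ : ℝ) (hδ : 0 < δ) : ∃ C : ℝ, 0 < C ∧ ∀ n : ℕ, 1 ≤ n →
    (A : ℝ) ^ n.primeFactors.card ≤ C * (n : ℝ) ^ δ := by
  obtain ⟨C, hC1, hC⟩ := Pool.Agent.W75.PL.DIV.t (δ / (A + 1)) (by positivity)
  refine ⟨C ^ (A + 1), by positivity, fun n hn => ?_⟩
  have h2 : (2 : ℝ) ^ n.primeFactors.card ≤ C * (n : ℝ) ^ (δ / (A + 1)) := by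
    refine le_trans ?_ (hC n hn)
    exact_mod_cast two_pow_le n (by omega)
  have h3 : (A : ℝ) ≤ 2 ^ (A + 1) := by
    have : A < 2 ^ A := Nat.lt_two_pow_self
    have h4 : A ≤ 2 ^ (A + 1) := by
      rw [pow_succ]; omega
    exact_mod_cast h4
  calc (A : ℝ) ^ n.primeFactors.card ≤ ((2 : ℝ) ^ (A + 1)) ^ n.primeFactors.card :=
        pow_le_pow_left₀ (by positivity) h3 _
    _ = ((2 : ℝ) ^ n.primeFactors.card) ^ (A + 1) := by rw [← pow_mul, ← pow_mul, mul_comm]
    _ ≤ (C * (n : ℝ) ^ (δ / (A + 1))) ^ (A + 1) := pow_le_pow_left₀ (by positivity) h2 _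
    _ = C ^ (A + 1) * (n : ℝ) ^ δ := by
        rw [mul_pow, ← Real.rpow_natCast ((n : ℝ) ^ (δ / (A + 1))), ← Real.rpow_mul (by positivity)]
        congr 2
        push_cast
        field_simp

/-- Two quadratic subfields of `ℚ̄` with the same discriminant are equal. -/
theorem quad_inj (K K' : IntermediateField ℚ (AlgebraicClosure ℚ)) [NumberField K] [NumberField K']
    (h2 : Module.finrank ℚ K = 2) (h2' : Module.finrank ℚ K' = 2) (hd : discr K = discr K') :
    K = K' := by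
  obtain ⟨x, t, m, hm, hx, ht, hsq⟩ := Pool.Agent.TH847.LS.exists_sqrt (K := K) h2
  obtain ⟨x', t', m', hm', hx', ht', hsq'⟩ := Pool.Agent.TH847.LS.exists_sqrt (K := K') h2'
  have hxa : (x : AlgebraicClosure ℚ) ^ 2 = ((m ^ 2 * discr K : ℤ) : AlgebraicClosure ℚ) := by
    have := congrArg (fun y : K => (y : AlgebraicClosure ℚ)) hx
    simpa using this
  have hxa' : (x' : AlgebraicClosure ℚ) ^ 2 = ((m' ^ 2 * discr K' : ℤ) : AlgebraicClosure ℚ) := by
    have := congrArg (fun y : K' => (y : AlgebraicClosure ℚ)) hx'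
    simpa using this
  have hmem : (m' : AlgebraicClosure ℚ) * (x : AlgebraicClosure ℚ) ∈ K' := by
    have h3 : ((m' : AlgebraicClosure ℚ) * x - m * x') * ((m' : AlgebraicClosure ℚ) * x + m * x') = 0 := by
      have e : ((m' : AlgebraicClosure ℚ) * x - m * x') * ((m' : AlgebraicClosure ℚ) * x + m * x') =
        (m' : AlgebraicClosure ℚ) ^ 2 * (x : AlgebraicClosure ℚ) ^ 2 - m ^ 2 * (x' : AlgebraicClosure ℚ) ^ 2 := by
        ring
      rw [e, hxa, hxa', hd]
      push_cast
      ring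
    have hmx : (m : AlgebraicClosure ℚ) * (x' : AlgebraicClosure ℚ) ∈ K' :=
      K'.mul_mem (intCast_mem K' m) x'.2
    rcases mul_eq_zero.mp h3 with h4 | h4
    · rw [sub_eq_zero.mp h4]
      exact hmx
    · rw [eq_neg_of_add_eq_zero_left h4]
      exact K'.neg_mem hmx
  have hmem1 : (m' : AlgebraicClosure ℚ) * (x : AlgebraicClosure ℚ) ∈ K ⊓ K' :=
    IntermediateField.mem_inf.2 ⟨K.mul_mem (intCast_mem K m') x.2, hmem⟩
  have hnb : K ⊓ K' ≠ ⊥ := by
    intro hb
    rw [hb, IntermediateField.mem_bot] at hmem1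
    obtain ⟨q, hq⟩ := hmem1
    have h5 : ((q ^ 2 : ℚ) : AlgebraicClosure ℚ) = ((m' ^ 2 * t : ℤ) : AlgebraicClosure ℚ) := by
      rw [ht]
      have : (q : AlgebraicClosure ℚ) = algebraMap ℚ (AlgebraicClosure ℚ) q := rfl
      push_cast
      rw [this, hq, mul_pow, hxa]
      push_cast
      rfl
    have h6 : (q ^ 2 : ℚ) = ((m' ^ 2 * t : ℤ) : ℚ) := by
      have h7 : ((q ^ 2 : ℚ) : AlgebraicClosure ℚ) = (((m' ^ 2 * t : ℤ) : ℚ) : AlgebraicClosure ℚ) := by
        rw [h5]; push_cast; rfl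
      exact_mod_cast h7
    have h8 : (q / m') ^ 2 = (t : ℚ) := by
      rw [div_pow, h6]
      have : (m' : ℚ) ≠ 0 := by exact_mod_cast hm'
      push_cast
      field_simp
    have h9 : IsSquare (t : ℚ) := ⟨q / m', by rw [← h8, sq]⟩
    exact hsq (Rat.isSquare_intCast_iff.1 h9)
  have hdvd : Module.finrank ℚ (K ⊓ K' : IntermediateField ℚ (AlgebraicClosure ℚ)) ∣ Module.finrank ℚ K := by
    exact IntermediateField.finrank_dvd_of_le_right inf_le_left
  rw [h2] at hdvd
  have hne1 : Module.finrank ℚ (K ⊓ K' : IntermediateField ℚ (AlgebraicClosure ℚ)) ≠ 1 := fun h =>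
    hnb (IntermediateField.finrank_eq_one_iff.1 h)
  have he2 : Module.finrank ℚ (K ⊓ K' : IntermediateField ℚ (AlgebraicClosure ℚ)) = 2 := by
    rcases (Nat.dvd_prime Nat.prime_two).1 hdvd with h | h
    · exact absurd h hne1
    · exact h
  haveI : FiniteDimensional ℚ K := NumberField.to_finiteDimensional
  haveI : FiniteDimensional ℚ K' := NumberField.to_finiteDimensional
  have e1 : K ⊓ K' = K := IntermediateField.eq_of_le_of_finrank_eq inf_le_left (by rw [he2, h2])
  have e2 : K ⊓ K' = K' := IntermediateField.eq_of_le_of_finrank_eq inf_le_right (by rw [he2, h2'])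
  rw [← e1]
  exact e2

end Pool.Agent.U916.DF
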