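import Pool.Agent.U916.DF.Om

set_option autoImplicit false

/-! Sums over quadratic fields and conductors. -/

namespace Pool.Agent.U916.DF

open NumberField

/-- the subfields of `ℚ̄` -/
abbrev Sub : Type := IntermediateField ℚ (AlgebraicClosure ℚ)

open scoped Classical in
/-- The discriminant of a subfield of `ℚ̄` (`0` if the degree is infinite). -/
noncomputable def disc (L : Sub) : ℤ := if h : NumberField L then @NumberField.discr L _ h else 0

lemma disc_eq (L : Sub) (h : NumberField L) : disc L = @NumberField.discr L _ h := by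
  unfold disc
  rw [dif_pos h]

lemma nf_of_finrank (L : Sub) {n : ℕ} (hn : n ≠ 0) (h : Module.finrank ℚ L = n) : NumberField L := by
  have : Module.Finite ℚ L := Module.finite_of_finrank_pos (by omega)
  exact { to_charZero := inferInstance, to_finiteDimensional := this }

open scoped Classical in
/-- the quadratic field of discriminant `D` -/
noncomputable def QF (D : ℤ) : Sub :=
  if h : ∃ K : Sub, Module.finrank ℚ K = 2 ∧ disc K = D then h.choose else ⊥

instance QF_nf (D : ℤ) : NumberField (QF D) := by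
  by_cases h : ∃ K : Sub, Module.finrank ℚ K = 2 ∧ disc K = D
  · have e : QF D = h.choose := by
      unfold QF
      rw [dif_pos h]
    refine nf_of_finrank _ two_ne_zero ?_
    rw [e]
    exact h.choose_spec.1
  · have e : QF D = ⊥ := by
      unfold QF
      rw [dif_neg h]
    refine nf_of_finrank _ one_ne_zero ?_
    rw [e]
    exact IntermediateField.finrank_bot

lemma QF_disc (K : Sub) (h2 : Module.finrank ℚ K = 2) : QF (disc K) = K := by
  have h : ∃ K' : Sub, Module.finrank ℚ K' = 2 ∧ disc K' = disc K := ⟨K, h2, rfl⟩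
  have e : QF (disc K) = h.choose := by
    unfold QF
    rw [dif_pos h]
  rw [e]
  have h3 := h.choose_spec
  have i1 := nf_of_finrank h.choose two_ne_zero h3.1
  have i2 := nf_of_finrank K two_ne_zero h2
  refine quad_inj h.choose K h3.1 h2 ?_
  rw [← disc_eq, ← disc_eq]
  exact h3.2

/-- the number of classes killed by `l` -/
noncomputable def tor (l : ℕ) (K : Sub) : ℕ := Nat.card {c : ClassGroup (𝓞 K) // c ^ l = 1}

theorem one_sum (l r : ℕ) (E C0 : ℝ)
    (h0 : ∀ X : ℝ, 1 ≤ X → ∀ (S : Finset ℤ) (K : ℤ → Type) [∀ D, Field (K D)]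
      [∀ D, NumberField (K D)],
      (∀ D ∈ S, |(D : ℝ)| ≤ X ∧ Module.finrank ℚ (K D) = 2 ∧ NumberField.discr (K D) = D) →
      ∑ D ∈ S, (Nat.card {c : ClassGroup (𝓞 (K D)) // c ^ l = 1} : ℝ) ^ r ≤ C0 * X ^ E)
    (Z : ℝ) (hZ : 1 ≤ Z) (Q : Finset Sub)
    (hQ : ∀ K ∈ Q, Module.finrank ℚ K = 2 ∧ |(disc K : ℝ)| ≤ Z) :
    ∑ K ∈ Q, (tor l K : ℝ) ^ r ≤ C0 * Z ^ E := by
  classical
  have hinj : Set.InjOn disc (Q : Set Sub) := by
    intro K hK K' hK' h
    rw [← QF_disc K (hQ K hK).1, ← QF_disc K' (hQ K' hK').1, h]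
  have h1 := h0 Z hZ (Q.image disc) (fun D => QF D) (by
    intro D hD
    obtain ⟨K, hK, rfl⟩ := Finset.mem_image.1 hD
    refine ⟨(hQ K hK).2, ?_, ?_⟩
    · have e : Module.finrank ℚ (QF (disc K) : Sub) = 2 := by
        rw [QF_disc K (hQ K hK).1]
        exact (hQ K hK).1
      exact e
    · rw [← disc_eq (QF (disc K)) (QF_nf (disc K)), QF_disc K (hQ K hK).1])
  rw [Finset.sum_image hinj] at h1
  refine le_trans (le_of_eq (Finset.sum_congr rfl fun K hK => ?_)) h1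
  change (tor l K : ℝ) ^ r = (tor l (QF (disc K)) : ℝ) ^ r
  rw [QF_disc K (hQ K hK).1]

/-- **Sums over quadratic fields and conductors.** -/
theorem double_sum (l r A : ℕ) (E c C0 : ℝ) (hcE : 1 < c * E)
    (hC0 : 0 < C0)
    (h0 : ∀ X : ℝ, 1 ≤ X → ∀ (S : Finset ℤ) (K : ℤ → Type) [∀ D, Field (K D)]
      [∀ D, NumberField (K D)],
      (∀ D ∈ S, |(D : ℝ)| ≤ X ∧ Module.finrank ℚ (K D) = 2 ∧ NumberField.discr (K D) = D) →
      ∑ D ∈ S, (Nat.card {c : ClassGroup (𝓞 (K D)) // c ^ l = 1} : ℝ) ^ r ≤ C0 * X ^ E) :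
    ∃ C : ℝ, 0 < C ∧ ∀ Y : ℝ, 1 ≤ Y → ∀ P : Finset (Sub × ℕ),
      (∀ x ∈ P, 1 ≤ x.2 ∧ Module.finrank ℚ x.1 = 2 ∧ |(disc x.1 : ℝ)| * (x.2 : ℝ) ^ c ≤ Y) →
      ∑ x ∈ P, (A : ℝ) ^ (x.2.primeFactors.card + 1) * (tor l x.1 : ℝ) ^ r ≤ C * Y ^ E := by
  classical
  obtain ⟨δ, hδ⟩ : ∃ δ, δ = (c * E - 1) / 2 := ⟨_, rfl⟩
  have hδ0 : 0 < δ := by rw [hδ]; linarith
  obtain ⟨C1, hC1, hom⟩ := pow_omega A δ hδ0
  have hsum : Summable fun n : ℕ => 1 / (n : ℝ) ^ (1 + δ) :=
    Real.summable_one_div_nat_rpow.2 (by linarith)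
  obtain ⟨Z, hZ⟩ : ∃ Z, Z = ∑' n : ℕ, 1 / (n : ℝ) ^ (1 + δ) := ⟨_, rfl⟩
  have hZ0 : 0 ≤ Z := by rw [hZ]; exact tsum_nonneg fun n => by positivity
  refine ⟨(A + 1) * C0 * C1 * (Z + 1), by positivity, ?_⟩
  intro Y hY P hP
  have hd1 : ∀ x ∈ P, (1 : ℝ) ≤ |(disc x.1 : ℝ)| := by
    intro x hx
    have i1 := nf_of_finrank x.1 two_ne_zero (hP x hx).2.1
    rw [disc_eq x.1 i1]
    have : NumberField.discr x.1 ≠ 0 := NumberField.discr_ne_zero x.1
    exact_mod_cast Int.one_le_abs this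
  have hfib : ∀ f ∈ P.image Prod.snd, ∑ x ∈ P with x.2 = f,
      (A : ℝ) ^ (x.2.primeFactors.card + 1) * (tor l x.1 : ℝ) ^ r ≤
      (A * C0 * C1 * Y ^ E) * (1 / (f : ℝ) ^ (1 + δ)) := by
    intro f hf
    obtain ⟨x0, hx0, hx0f⟩ := Finset.mem_image.1 hf
    have hf1 : 1 ≤ f := by rw [← hx0f]; exact (hP x0 hx0).1
    have hfR : (1 : ℝ) ≤ f := by exact_mod_cast hf1
    have hfc : 0 < (f : ℝ) ^ c := by positivity
    have hYf : 1 ≤ Y / (f : ℝ) ^ c := by
      rw [one_le_div hfc]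
      have h3 := (hP x0 hx0).2.2
      rw [hx0f] at h3
      have h4 := hd1 x0 hx0
      nlinarith
    have e1 : ∑ x ∈ P with x.2 = f, (A : ℝ) ^ (x.2.primeFactors.card + 1) * (tor l x.1 : ℝ) ^ r =
        (A : ℝ) ^ (f.primeFactors.card + 1) * ∑ K ∈ (P.filter fun x => x.2 = f).image Prod.fst,
          (tor l K : ℝ) ^ r := by
      rw [Finset.sum_image, Finset.mul_sum]
      · refine Finset.sum_congr rfl fun x hx => ?_
        rw [(Finset.mem_filter.1 hx).2]
      · intro x hx y hy hxy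
        have hx' := (Finset.mem_filter.1 hx).2
        have hy' := (Finset.mem_filter.1 hy).2
        exact Prod.ext hxy (hx'.trans hy'.symm)
    rw [e1]
    have h5 := one_sum l r E C0 h0 (Y / (f : ℝ) ^ c) hYf ((P.filter fun x => x.2 = f).image Prod.fst)
      (by
        intro K hK
        obtain ⟨x, hx, rfl⟩ := Finset.mem_image.1 hK
        obtain ⟨hx1, hx2⟩ := Finset.mem_filter.1 hx
        refine ⟨(hP x hx1).2.1, ?_⟩
        rw [le_div_iff₀ hfc]
        have h3 := (hP x hx1).2.2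
        rw [hx2] at h3
        exact h3)
    have h6 : (Y / (f : ℝ) ^ c) ^ E = Y ^ E * (1 / (f : ℝ) ^ (c * E)) := by
      rw [Real.div_rpow (by linarith) hfc.le, ← Real.rpow_mul (by positivity)]
      ring
    have h7 : (A : ℝ) ^ (f.primeFactors.card + 1) ≤ A * (C1 * (f : ℝ) ^ δ) := by
      rw [pow_succ, mul_comm]
      exact mul_le_mul_of_nonneg_left (hom f hf1) (by positivity)
    calc (A : ℝ) ^ (f.primeFactors.card + 1) * ∑ K ∈ (P.filter fun x => x.2 = f).image Prod.fst,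
          (tor l K : ℝ) ^ r
        ≤ (A * (C1 * (f : ℝ) ^ δ)) * (C0 * (Y / (f : ℝ) ^ c) ^ E) :=
          mul_le_mul h7 h5 (Finset.sum_nonneg fun K _ => by positivity) (by positivity)
      _ = (A * C0 * C1 * Y ^ E) * ((f : ℝ) ^ δ * (1 / (f : ℝ) ^ (c * E))) := by rw [h6]; ring
      _ = (A * C0 * C1 * Y ^ E) * (1 / (f : ℝ) ^ (1 + δ)) := by
          congr 1
          have hf0 : (0 : ℝ) < f := by linarith
          rw [mul_one_div, div_eq_div_iff (by positivity) (by positivity), one_mul,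
            ← Real.rpow_add hf0]
          congr 1
          rw [hδ]; ring
  calc ∑ x ∈ P, (A : ℝ) ^ (x.2.primeFactors.card + 1) * (tor l x.1 : ℝ) ^ r
      = ∑ f ∈ P.image Prod.snd, ∑ x ∈ P with x.2 = f,
        (A : ℝ) ^ (x.2.primeFactors.card + 1) * (tor l x.1 : ℝ) ^ r :=
        (Finset.sum_fiberwise_of_maps_to (fun x hx => Finset.mem_image_of_mem _ hx) _).symm
    _ ≤ ∑ f ∈ P.image Prod.snd, (A * C0 * C1 * Y ^ E) * (1 / (f : ℝ) ^ (1 + δ)) :=
        Finset.sum_le_sum hfib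
    _ = (A * C0 * C1 * Y ^ E) * ∑ f ∈ P.image Prod.snd, (1 / (f : ℝ) ^ (1 + δ)) :=
        (Finset.mul_sum _ _ _).symm
    _ ≤ (A * C0 * C1 * Y ^ E) * Z := by
        refine mul_le_mul_of_nonneg_left ?_ (by positivity)
        rw [hZ]
        exact hsum.sum_le_tsum _ fun n _ => by positivity
    _ ≤ (A + 1) * C0 * C1 * (Z + 1) * Y ^ E := by
        have hp : 0 ≤ C0 * C1 * Y ^ E := by positivity
        have hA : (0 : ℝ) ≤ A := by positivity
        have : (A : ℝ) * Z ≤ (A + 1) * (Z + 1) := by nlinarith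
        calc (A * C0 * C1 * Y ^ E) * Z = (A * Z) * (C0 * C1 * Y ^ E) := by ring
          _ ≤ ((A + 1) * (Z + 1)) * (C0 * C1 * Y ^ E) := mul_le_mul_of_nonneg_right this hp
          _ = _ := by ring

end Pool.Agent.U916.DF
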